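import Mathlib
import Pool.Agent.N772.CZ.Crowd

/-!
# The area under the roof

For an integer polynomial `f` let `roof f` be the function on the circle `ℝ / 2πℤ` whose value at
`x` is the largest of the numbers `log |z| - dist (x, arg z)` over the complex zeros `z` of `f`,
and zero if all of these are negative (a roof with one ridge of height `log |z|` and slope one
above each zero outside the unit circle).  If the Mahler measure of `f` exceeds one, then

  `1 / 640 ≤ (log |a|) ^ 2 + n * ∫ roof f`,   `n = deg f`, `a` the leading coefficient.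
-/

set_option autoImplicit false

open Polynomial

namespace Pool.Agent.Results.MP_7ab245_nt.AreaBound

/-- the roof function of an integer polynomial -/
noncomputable def roof (f : ℤ[X]) (x : ℝ) : ℝ :=
  ⨆ z : {z : ℂ // aeval z f = 0},
    max 0 (Real.log ‖(z : ℂ)‖ - ‖((x - (z : ℂ).arg : ℝ) : AddCircle (2 * Real.pi))‖)

theorem result (f : ℤ[X]) (hf : 1 < (f.map (Int.castRingHom ℂ)).mahlerMeasure) :
    Continuous (roof f) ∧
    (1 : ℝ) / 640 ≤ (Real.log |(f.leadingCoeff : ℝ)|) ^ 2 +
      (f.natDegree : ℝ) * ∫ x in (-Real.pi)..Real.pi, roof f x := by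
  have hf0 : f ≠ 0 := by
    rintro rfl
    simp at hf
    linarith
  exact ⟨Pool.Agent.N772.CZ.RF_continuous (Pool.Agent.N772.CZ.finite_zeros f hf0),
    Pool.Agent.N772.CZ.area_general f hf⟩

end Pool.Agent.Results.MP_7ab245_nt.AreaBound
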