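import Mathlib
import Pool.Agent.N772.BL.Irr

/-!
# Lehmer's problem for irreducible polynomials with few blocks: a bound polynomial in their number

Let `f = ∑ A_s X ^ s` be irreducible with `M(f) > 1`, where the sum has `r + 1 ≥ 2` blocks, the
`A_s` are nonzero integer polynomials of degree at most `D` and the distance of any two of the
exponents `s` is at least `128 (2 ^ r D)² (1 + log (4 · 2 ^ r D))`.  Then
`log M(f) ≥ c / (r + 1) ^ 3` with an absolute constant `c > 0`.
-/

set_option autoImplicit false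

open Polynomial

namespace Pool.Agent.Results.MP_7ab245_nt.BlockIrreducible

/-- `128 D² (1 + log (4 D))` -/
noncomputable def gapLength (D : ℕ) : ℝ := 128 * (D : ℝ) ^ 2 * (1 + Real.log (4 * D))

/-- the polynomial with the blocks `A s` at `X ^ s` for `s` in `S` -/
noncomputable def blockSum (S : Finset ℕ) (A : ℕ → ℤ[X]) : ℤ[X] := ∑ s ∈ S, A s * X ^ s

theorem result : ∃ c : ℝ, 0 < c ∧ ∀ (r D : ℕ) (S : Finset ℕ) (A : ℕ → ℤ[X]),
    S.card = r + 1 → 0 < r → (∀ s ∈ S, A s ≠ 0 ∧ (A s).natDegree ≤ D) →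
    (∀ s ∈ S, ∀ t ∈ S, s ≠ t → gapLength (2 ^ r * D) ≤ |(s : ℝ) - t|) →
    Irreducible (blockSum S A) →
    1 < ((blockSum S A).map (Int.castRingHom ℂ)).mahlerMeasure →
    c / (r + 1 : ℝ) ^ 3 ≤
      Real.log ((blockSum S A).map (Int.castRingHom ℂ)).mahlerMeasure :=
  Pool.Agent.N772.BL.irr_blocks

end Pool.Agent.Results.MP_7ab245_nt.BlockIrreducible
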