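import Mathlib
import Pool.Agent.N772.BL.Fin

/-!
# Lehmer's problem for integer polynomials that are sparse in blocks

For every `r` there is `μ > 1` such that for every `D` the following holds.  Let `f = ∑ A_s X ^ s`
be a sum of at most `r + 1` blocks, with integer polynomials `A_s` of degree at most `D`, where the
distance of any two of the exponents `s` is at least `128 (2 ^ r D)² (1 + log (4 · 2 ^ r D))`.  If the
blocks have no common zero outside the closed unit disc, then `M(f) = 1` or `M(f) ≥ μ`.

The constant depends on the number of blocks only, not on `D`, on the coefficients or on the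
exponents.  For `D = 0` the blocks are monomials.

Method.  For all complex polynomials `f` of this shape and every block `A_l ≠ 0` the mean of
`log (1 + |A_l / f|)` over the unit circle is at most `54 r + 1`.  Let `i` be the exponent farthest
from `l` and `g = |l - i|`.  The operator `f ↦ X (f' A_i - f A_i') - i f A_i` removes the block `A_i`
and turns `A_l` into `W = (l - i) A_i A_l + X (A_l' A_i - A_l A_i')`; one compares `A_l / f` with
`W / f₁`, where `f₁` is the new polynomial, by means of the logarithmic derivatives of `f` and `A_i`,
which are of size `g` up to a factor of bounded logarithmic mean, and of the inequality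
`M(W) ≥ c g M(A_i) M(A_l)`, which holds because of the size of the gaps.  Induction over the number
of blocks gives the bound.  The theorem then follows from the gap theorem for coprime pairs of
bounded height of the starting files, applied to `f` and a block.
-/

set_option autoImplicit false

open Polynomial

namespace Pool.Agent.Results.MP_7ab245_nt.BlockSparse

/-- `128 D² (1 + log (4 D))` -/
noncomputable def gapLength (D : ℕ) : ℝ := 128 * (D : ℝ) ^ 2 * (1 + Real.log (4 * D))

/-- the polynomial with the blocks `A s` at `X ^ s` for `s` in `S` -/
noncomputable def blockSum (S : Finset ℕ) (A : ℕ → ℤ[X]) : ℤ[X] := ∑ s ∈ S, A s * X ^ s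

theorem result (r : ℕ) : ∃ μ : ℝ, 1 < μ ∧ ∀ (D : ℕ) (S : Finset ℕ) (A : ℕ → ℤ[X]),
    S.card ≤ r + 1 → (∀ s ∈ S, (A s).natDegree ≤ D) →
    (∀ s ∈ S, ∀ t ∈ S, s ≠ t → gapLength (2 ^ r * D) ≤ |(s : ℝ) - t|) →
    (∀ z : ℂ, 1 < ‖z‖ → ∃ s ∈ S, aeval z (A s) ≠ 0) →
    ((blockSum S A).map (Int.castRingHom ℂ)).mahlerMeasure = 1 ∨
      μ ≤ ((blockSum S A).map (Int.castRingHom ℂ)).mahlerMeasure :=
  Pool.Agent.N772.BL.gap_blocks r

end Pool.Agent.Results.MP_7ab245_nt.BlockSparse
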