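import Mathlib
import Pool.Agent.N772.CZ.Crowd

/-!
# Lehmer's inequality for polynomials with crowded zeros

A polynomial of degree `n` is `A`-crowded when every zero `z` with `log |z| ≥ A / n` has, inside
the angle of half width `A * log |z|` around `z`, at least `(n / A) * log |z|` zeros of comparable
height.  For every integer polynomial that is `A`-crowded, of any degree, the Mahler measure is `1`
or at least `exp (1 / (6000 * A ^ 3))`.
-/

set_option autoImplicit false

open Polynomial

namespace Pool.Agent.Results.MP_7ab245_nt.CrowdedZeros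

open Classical in
/-- every zero of height at least `A / n` has the proportional number of comparable neighbours -/
def Crowded (A : ℝ) (f : ℤ[X]) : Prop :=
  ∀ z : ℂ, aeval z f = 0 → A ≤ f.natDegree * Real.log ‖z‖ →
    f.natDegree * Real.log ‖z‖ ≤ A * ((f.map (Int.castRingHom ℂ)).roots.countP fun w =>
      Real.log ‖z‖ ≤ A * Real.log ‖w‖ ∧
        ‖((w.arg - z.arg : ℝ) : AddCircle (2 * Real.pi))‖ ≤ A * Real.log ‖z‖)

theorem result (A : ℝ) (hA : 1 ≤ A) (f : ℤ[X]) (hcr : Crowded A f)
    (hf : 1 < (f.map (Int.castRingHom ℂ)).mahlerMeasure) :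
    Real.exp (1 / (6000 * A ^ 3)) ≤ (f.map (Int.castRingHom ℂ)).mahlerMeasure := by
  have hf0 : f ≠ 0 := by
    rintro rfl
    simp at hf
    linarith
  have hlc : f.leadingCoeff ≠ 0 := leadingCoeff_ne_zero.2 hf0
  have hA3 : (1 : ℝ) ≤ A ^ 3 := one_le_pow₀ hA
  by_cases habs : |f.leadingCoeff| = 1
  · have hn : 0 < f.natDegree := by
      rcases Nat.eq_zero_or_pos f.natDegree with h | h
      · exfalso
        rw [Pool.Agent.N772.CZ.log_mahler f habs, eq_C_of_natDegree_eq_zero h, map_C, roots_C,
          Multiset.map_zero, Multiset.sum_zero, Real.exp_zero] at hf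
        exact lt_irrefl _ hf
      · exact h
    have h1 := Pool.Agent.N772.CZ.area_general f hf
    have h2 := Pool.Agent.N772.CZ.area_le f hf0 hn A hA hcr
    have h3 : Real.log |(f.leadingCoeff : ℝ)| = 0 := by
      have : |(f.leadingCoeff : ℝ)| = 1 := by exact_mod_cast habs
      rw [this, Real.log_one]
    rw [h3] at h1
    rw [Pool.Agent.N772.CZ.log_mahler f habs]
    apply Real.exp_le_exp.2
    rw [div_le_iff₀ (by positivity)]
    nlinarith
  · have h1 : (2 : ℝ) ≤ |(f.leadingCoeff : ℝ)| := by
      have h2 : 2 ≤ |f.leadingCoeff| := by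
        have := Int.one_le_abs hlc
        omega
      exact_mod_cast h2
    have hinj : Function.Injective (Int.castRingHom ℂ) := by
      intro a b h
      simpa using h
    have h2 : |(f.leadingCoeff : ℝ)| ≤ (f.map (Int.castRingHom ℂ)).mahlerMeasure := by
      have h3 := (f.map (Int.castRingHom ℂ)).leadingCoeff_le_mahlerMeasure
      rw [leadingCoeff_map_of_injective hinj, eq_intCast, Complex.norm_intCast] at h3
      exact h3
    have h3 : Real.exp (1 / (6000 * A ^ 3)) ≤ Real.exp (1 / 2) := by
      apply Real.exp_le_exp.2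
      apply one_div_le_one_div_of_le (by norm_num)
      linarith
    have h4 : Real.exp (1 / 2) ≤ 2 := by
      have h5 := Real.exp_one_lt_d9
      have h6 : Real.exp (1 / 2) ^ 2 = Real.exp 1 := by
        rw [← Real.exp_nat_mul]
        norm_num
      nlinarith [Real.exp_pos (1 / 2)]
    linarith

end Pool.Agent.Results.MP_7ab245_nt.CrowdedZeros
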